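import Mathlib

/-!
# From a homogeneous bi-Lipschitz bijection `X ≃ [0, ∞) × X` to a bi-Lipschitz bijection between the
unit sphere and the closed unit ball of `X`
-/

set_option autoImplicit false

open Filter Topology Metric
open scoped NNReal

namespace Pool.Agent.H53Sph

/-- A homogeneous bi-Lipschitz bijection `v ↦ (T v, G v)` of `X` onto `[0, ∞) × X` with the inverse
`R`. -/
structure HalfSpace (X : Type*) [NormedAddCommGroup X] [NormedSpace ℝ X]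
    (T : X → ℝ) (G : X → X) (R : ℝ → X → X) (L : ℝ) : Prop where
  hL : 0 < L
  T0 : ∀ v, 0 ≤ T v
  Ts : ∀ v (a : ℝ), 0 ≤ a → T (a • v) = a * T v
  Tl : ∀ v v', |T v - T v'| ≤ L * ‖v - v'‖
  Gs : ∀ v (a : ℝ), 0 ≤ a → G (a • v) = a • G v
  Gl : ∀ v v', ‖G v - G v'‖ ≤ L * ‖v - v'‖
  Rs : ∀ t x (a : ℝ), 0 ≤ a → R (a * t) (a • x) = a • R t x
  Rl : ∀ t t' x x', ‖R t x - R t' x'‖ ≤ L * (|t - t'| + ‖x - x'‖)
  RTG : ∀ v, R (T v) (G v) = v
  TR : ∀ t x, 0 ≤ t → T (R t x) = t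
  GR : ∀ t x, G (R t x) = x

theorem div_lip {E : Type*} [NormedAddCommGroup E] [NormedSpace ℝ E] {p p' : E} {n n' c : ℝ}
    (hc : 0 < c) (hn : c ≤ n) (hn' : 0 < n') (hp' : ‖p'‖ ≤ n') :
    ‖n⁻¹ • p - n'⁻¹ • p'‖ ≤ (‖p - p'‖ + |n - n'|) / c := by
  have hn0 : 0 < n := lt_of_lt_of_le hc hn
  have e : n⁻¹ • p - n'⁻¹ • p' = n⁻¹ • (p - p') + (n⁻¹ * (n' - n)) • (n'⁻¹ • p') := by
    rw [smul_sub, smul_smul]
    have : n⁻¹ * (n' - n) * n'⁻¹ = n⁻¹ - n'⁻¹ := by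
      field_simp
    rw [this, sub_smul]
    abel
  rw [e]
  have h1 : ‖n⁻¹ • (p - p')‖ ≤ ‖p - p'‖ / c := by
    rw [norm_smul, Real.norm_eq_abs, abs_of_pos (inv_pos.2 hn0), inv_mul_eq_div]
    exact div_le_div_of_nonneg_left (norm_nonneg _) hc hn
  have h2 : ‖n'⁻¹ • p'‖ ≤ 1 := by
    rw [norm_smul, Real.norm_eq_abs, abs_of_pos (inv_pos.2 hn'), inv_mul_eq_div]
    exact (div_le_one hn').2 hp'
  have h3 : ‖(n⁻¹ * (n' - n)) • (n'⁻¹ • p')‖ ≤ |n - n'| / c := by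
    rw [norm_smul, Real.norm_eq_abs, abs_mul, abs_of_pos (inv_pos.2 hn0), inv_mul_eq_div,
      abs_sub_comm]
    calc |n - n'| / n * ‖n'⁻¹ • p'‖ ≤ |n - n'| / n * 1 :=
          mul_le_mul_of_nonneg_left h2 (by positivity)
      _ = |n - n'| / n := mul_one _
      _ ≤ |n - n'| / c := div_le_div_of_nonneg_left (abs_nonneg _) hc hn
  calc _ ≤ _ := norm_add_le _ _
    _ ≤ ‖p - p'‖ / c + |n - n'| / c := add_le_add h1 h3
    _ = _ := by ring

variable {X : Type*} [NormedAddCommGroup X] [NormedSpace ℝ X]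
  {T : X → ℝ} {G : X → X} {R : ℝ → X → X} {L : ℝ}

/-- the gauge of `(T v, G v)` -/
noncomputable def gN (T : X → ℝ) (G : X → X) (v : X) : ℝ := max (T v) ‖G v‖

/-- sphere to ball -/
noncomputable def toBall (T : X → ℝ) (G : X → X) (v : X) : X :=
  (1 - (gN T G v)⁻¹ * T v / 2) • ((gN T G v)⁻¹ • G v)

/-- ball to the boundary of the cylinder, first coordinate -/
noncomputable def tC (w : X) : ℝ := min 1 (2 - 2 * ‖w‖)

/-- ball to the boundary of the cylinder, second coordinate -/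
noncomputable def xC (w : X) : X := (max ‖w‖ (1 / 2))⁻¹ • w

/-- ball to sphere -/
noncomputable def toSph (R : ℝ → X → X) (w : X) : X := (‖R (tC w) (xC w)‖)⁻¹ • R (tC w) (xC w)

namespace HalfSpace

variable (h : HalfSpace X T G R L)
include h

theorem R00 : R 0 0 = 0 := by
  have := h.Rs 0 0 0 le_rfl
  simpa using this

theorem T00 : T 0 = 0 := by
  have := h.Ts 0 0 le_rfl
  simpa using this

theorem G00 : G 0 = 0 := by
  have := h.Gs 0 0 le_rfl
  simpa using this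

theorem gN_nonneg (v : X) : 0 ≤ gN T G v := le_max_of_le_left (h.T0 v)

theorem le_gN (v : X) : ‖v‖ ≤ 2 * L * gN T G v := by
  have h1 := h.Rl (T v) 0 (G v) 0
  rw [h.RTG, h.R00, sub_zero, sub_zero, sub_zero, abs_of_nonneg (h.T0 v)] at h1
  have h2 : T v ≤ gN T G v := le_max_left _ _
  have h3 : ‖G v‖ ≤ gN T G v := le_max_right _ _
  have hL := h.hL
  calc ‖v‖ ≤ L * (T v + ‖G v‖) := h1
    _ ≤ L * (gN T G v + gN T G v) := by gcongr
    _ = _ := by ring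

theorem gN_le (v : X) : gN T G v ≤ L * ‖v‖ := by
  apply max_le
  · have := h.Tl v 0
    rw [h.T00, sub_zero, sub_zero, abs_of_nonneg (h.T0 v)] at this
    exact this
  · have := h.Gl v 0
    rwa [h.G00, sub_zero, sub_zero] at this

theorem gN_lip (v v' : X) : |gN T G v - gN T G v'| ≤ L * ‖v - v'‖ := by
  refine (abs_max_sub_max_le_max _ _ _ _).trans (max_le (h.Tl v v') ?_)
  exact (abs_norm_sub_norm_le _ _).trans (h.Gl v v')

theorem gN_smul (v : X) {a : ℝ} (ha : 0 ≤ a) : gN T G (a • v) = a * gN T G v := by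
  unfold gN
  rw [h.Ts v a ha, h.Gs v a ha, norm_smul, Real.norm_eq_abs, abs_of_nonneg ha,
    mul_max_of_nonneg _ _ ha]

theorem gN_pos {v : X} (hv : ‖v‖ = 1) : 1 / (2 * L) ≤ gN T G v := by
  have h1 := h.le_gN v
  have hL := h.hL
  rw [div_le_iff₀ (by positivity)]
  linarith

/-- the point of the boundary of the cylinder of `v` -/
theorem cyl {v : X} (hv : 0 < gN T G v) :
    0 ≤ (gN T G v)⁻¹ * T v ∧ (gN T G v)⁻¹ * T v ≤ 1 ∧ ‖(gN T G v)⁻¹ • G v‖ ≤ 1 ∧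
      ((gN T G v)⁻¹ * T v = 1 ∨ ‖(gN T G v)⁻¹ • G v‖ = 1) := by
  have hi := inv_pos.2 hv
  have h1 : T v ≤ gN T G v := le_max_left _ _
  have h2 : ‖G v‖ ≤ gN T G v := le_max_right _ _
  rw [norm_smul, Real.norm_eq_abs, abs_of_pos hi]
  refine ⟨mul_nonneg hi.le (h.T0 v), ?_, ?_, ?_⟩
  · rw [inv_mul_eq_div]; exact (div_le_one hv).2 h1
  · rw [inv_mul_eq_div]; exact (div_le_one hv).2 h2
  · rcases le_total (T v) ‖G v‖ with h3 | h3
    · right
      have : gN T G v = ‖G v‖ := max_eq_right h3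
      rw [← this]; exact inv_mul_cancel₀ hv.ne'
    · left
      have : gN T G v = T v := max_eq_left h3
      rw [← this]; exact inv_mul_cancel₀ hv.ne'

theorem norm_toBall {v : X} (hv : 0 < gN T G v) : ‖toBall T G v‖ ≤ 1 := by
  obtain ⟨h1, h2, h3, -⟩ := h.cyl hv
  unfold toBall
  rw [norm_smul, Real.norm_eq_abs, abs_of_nonneg (by linarith)]
  calc _ ≤ (1 : ℝ) * 1 := mul_le_mul (by linarith) h3 (norm_nonneg _) zero_le_one
    _ = 1 := one_mul 1

theorem tC_toBall {v : X} (hv : 0 < gN T G v) : tC (toBall T G v) = (gN T G v)⁻¹ * T v := by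
  obtain ⟨h1, h2, h3, h4⟩ := h.cyl hv
  have e : ‖toBall T G v‖ = (1 - (gN T G v)⁻¹ * T v / 2) * ‖(gN T G v)⁻¹ • G v‖ := by
    unfold toBall
    rw [norm_smul, Real.norm_eq_abs, abs_of_nonneg (by linarith)]
  unfold tC
  rw [e]
  rcases h4 with h4 | h4
  · rw [h4]
    apply min_eq_left
    linarith
  · rw [h4]
    have : 2 - 2 * ((1 - (gN T G v)⁻¹ * T v / 2) * 1) = (gN T G v)⁻¹ * T v := by ring
    rw [this]
    exact min_eq_right h2

theorem xC_toBall {v : X} (hv : 0 < gN T G v) : xC (toBall T G v) = (gN T G v)⁻¹ • G v := by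
  obtain ⟨h1, h2, h3, h4⟩ := h.cyl hv
  have e : ‖toBall T G v‖ = (1 - (gN T G v)⁻¹ * T v / 2) * ‖(gN T G v)⁻¹ • G v‖ := by
    unfold toBall
    rw [norm_smul, Real.norm_eq_abs, abs_of_nonneg (by linarith)]
  unfold xC
  rw [e]
  rcases h4 with h4 | h4
  · rw [h4, max_eq_right (by linarith)]
    unfold toBall
    rw [h4, smul_smul]
    norm_num
  · rw [h4, mul_one, max_eq_left (by linarith)]
    unfold toBall
    rw [smul_smul, inv_mul_cancel₀ (by linarith : (1 - (gN T G v)⁻¹ * T v / 2) ≠ 0), one_smul]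

theorem toSph_toBall {v : X} (hv : ‖v‖ = 1) : toSph R (toBall T G v) = v := by
  have hL := h.hL
  have hN : 0 < gN T G v := lt_of_lt_of_le (by positivity) (h.gN_pos hv)
  unfold toSph
  rw [h.tC_toBall hN, h.xC_toBall hN, h.Rs _ _ _ (inv_pos.2 hN).le, h.RTG, norm_smul, hv,
    Real.norm_eq_abs, abs_of_pos (inv_pos.2 hN), mul_one, inv_inv, smul_smul,
    mul_inv_cancel₀ hN.ne', one_smul]

omit h in
theorem cylC {w : X} (hw : ‖w‖ ≤ 1) : 0 ≤ tC w ∧ tC w ≤ 1 ∧ ‖xC w‖ ≤ 1 ∧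
    (tC w = 1 ∨ ‖xC w‖ = 1) ∧ (1 - tC w / 2) • xC w = w := by
  have h0 : (0 : ℝ) < max ‖w‖ (1 / 2) := lt_of_lt_of_le (by norm_num) (le_max_right _ _)
  have hx : ‖xC w‖ = (max ‖w‖ (1 / 2))⁻¹ * ‖w‖ := by
    unfold xC
    rw [norm_smul, Real.norm_eq_abs, abs_of_pos (inv_pos.2 h0)]
  refine ⟨le_min zero_le_one (by linarith), min_le_left _ _, ?_, ?_, ?_⟩
  · rw [hx, inv_mul_eq_div]
    exact (div_le_one h0).2 (le_max_left _ _)
  · rcases le_total ‖w‖ (1 / 2) with h1 | h1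
    · left
      exact min_eq_left (by linarith)
    · right
      rw [hx, max_eq_left h1]
      exact inv_mul_cancel₀ (by linarith)
  · rcases le_total ‖w‖ (1 / 2) with h1 | h1
    · have : tC w = 1 := min_eq_left (by linarith)
      rw [this]
      unfold xC
      rw [max_eq_right h1, smul_smul]
      norm_num
    · have : tC w = 2 - 2 * ‖w‖ := min_eq_right (by linarith)
      rw [this]
      unfold xC
      rw [max_eq_left h1, smul_smul]
      have e : (1 - (2 - 2 * ‖w‖) / 2) * ‖w‖⁻¹ = 1 := by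
        have : ‖w‖ ≠ 0 := by linarith
        field_simp
        ring
      rw [e, one_smul]

theorem gN_cylC {w : X} (hw : ‖w‖ ≤ 1) : gN T G (R (tC w) (xC w)) = 1 := by
  obtain ⟨h1, h2, h3, h4, -⟩ := cylC hw
  unfold gN
  rw [h.TR _ _ h1, h.GR]
  rcases h4 with h4 | h4
  · rw [h4]; exact max_eq_left h3
  · rw [h4]; exact max_eq_right h2

theorem normR {w : X} (hw : ‖w‖ ≤ 1) : 1 / L ≤ ‖R (tC w) (xC w)‖ := by
  have h1 := h.gN_le (R (tC w) (xC w))
  rw [h.gN_cylC hw] at h1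
  rw [div_le_iff₀ h.hL]
  linarith

theorem norm_toSph {w : X} (hw : ‖w‖ ≤ 1) : ‖toSph R w‖ = 1 := by
  have hL := h.hL
  have h1 : 0 < ‖R (tC w) (xC w)‖ := lt_of_lt_of_le (by positivity) (h.normR hw)
  unfold toSph
  rw [norm_smul, Real.norm_eq_abs, abs_of_pos (inv_pos.2 h1), inv_mul_cancel₀ h1.ne']

theorem toBall_toSph {w : X} (hw : ‖w‖ ≤ 1) : toBall T G (toSph R w) = w := by
  have hL := h.hL
  have h1 : 0 < ‖R (tC w) (xC w)‖ := lt_of_lt_of_le (by positivity) (h.normR hw)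
  obtain ⟨h2, h3, h4, h5, h6⟩ := cylC hw
  have hi := inv_pos.2 h1
  have hN : gN T G (toSph R w) = ‖R (tC w) (xC w)‖⁻¹ := by
    unfold toSph
    rw [h.gN_smul _ hi.le, h.gN_cylC hw, mul_one]
  unfold toBall
  rw [hN, inv_inv]
  unfold toSph
  rw [h.Ts _ _ hi.le, h.Gs _ _ hi.le, h.TR _ _ h2, h.GR, ← mul_assoc, mul_inv_cancel₀ h1.ne',
    one_mul, smul_smul ‖R (tC w) (xC w)‖, mul_inv_cancel₀ h1.ne', one_smul, h6]

theorem toBall_lip {v v' : X} (hv : ‖v‖ = 1) (hv' : ‖v'‖ = 1) :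
    ‖toBall T G v - toBall T G v'‖ ≤ 6 * L ^ 2 * ‖v - v'‖ := by
  have hL := h.hL
  have hN := h.gN_pos hv
  have hN' : 0 < gN T G v' := lt_of_lt_of_le (by positivity) (h.gN_pos hv')
  have hN0 : 0 < gN T G v := lt_of_lt_of_le (by positivity) hN
  have hc : (0 : ℝ) < 1 / (2 * L) := by positivity
  have h1 := div_lip (p := G v) (p' := G v') hc hN hN' (le_max_right _ _)
  have h2 := div_lip (p := T v) (p' := T v') hc hN hN' (by
    rw [Real.norm_eq_abs, abs_of_nonneg (h.T0 v')]; exact le_max_left _ _)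
  have hTl := h.Tl v v'
  have hGl := h.Gl v v'
  have hNl := h.gN_lip v v'
  obtain ⟨a1, a2, a3, -⟩ := h.cyl hN0
  obtain ⟨b1, b2, b3, -⟩ := h.cyl hN'
  set N := gN T G v
  set N' := gN T G v'
  have h1' : ‖N⁻¹ • G v - N'⁻¹ • G v'‖ ≤ 4 * L ^ 2 * ‖v - v'‖ := by
    refine h1.trans ?_
    rw [div_le_iff₀ hc]
    calc ‖G v - G v'‖ + |N - N'| ≤ L * ‖v - v'‖ + L * ‖v - v'‖ := add_le_add hGl hNl
      _ = 4 * L ^ 2 * ‖v - v'‖ * (1 / (2 * L)) := by field_simp; ring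
  have h2' : |N⁻¹ * T v - N'⁻¹ * T v'| ≤ 4 * L ^ 2 * ‖v - v'‖ := by
    have h3 : ‖N⁻¹ • T v - N'⁻¹ • T v'‖ ≤ 4 * L ^ 2 * ‖v - v'‖ := by
      refine h2.trans ?_
      rw [div_le_iff₀ hc, Real.norm_eq_abs]
      calc |T v - T v'| + |N - N'| ≤ L * ‖v - v'‖ + L * ‖v - v'‖ := add_le_add hTl hNl
        _ = 4 * L ^ 2 * ‖v - v'‖ * (1 / (2 * L)) := by field_simp; ring
    simpa [Real.norm_eq_abs, smul_eq_mul] using h3
  have e : toBall T G v - toBall T G v' = (1 - N⁻¹ * T v / 2) • (N⁻¹ • G v - N'⁻¹ • G v') +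
      (-(N⁻¹ * T v - N'⁻¹ * T v') / 2) • (N'⁻¹ • G v') := by
    change (1 - N⁻¹ * T v / 2) • (N⁻¹ • G v) - (1 - N'⁻¹ * T v' / 2) • (N'⁻¹ • G v') = _
    module
  rw [e]
  refine (norm_add_le _ _).trans ?_
  rw [norm_smul, norm_smul, Real.norm_eq_abs, Real.norm_eq_abs, abs_of_nonneg (by linarith),
    abs_div, abs_neg, abs_two]
  have h5 : (1 - N⁻¹ * T v / 2) * ‖N⁻¹ • G v - N'⁻¹ • G v'‖ ≤ 1 * (4 * L ^ 2 * ‖v - v'‖) :=
    mul_le_mul (by linarith) h1' (norm_nonneg _) zero_le_one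
  have h6 : |N⁻¹ * T v - N'⁻¹ * T v'| / 2 * ‖N'⁻¹ • G v'‖ ≤ (4 * L ^ 2 * ‖v - v'‖) / 2 * 1 :=
    mul_le_mul (by linarith) b3 (norm_nonneg _) (by positivity)
  linarith

omit h [NormedSpace ℝ X] in
theorem tC_lip (w w' : X) : |tC w - tC w'| ≤ 2 * ‖w - w'‖ := by
  unfold tC
  have h1 := abs_min_sub_min_le_max (1 : ℝ) (2 - 2 * ‖w‖) 1 (2 - 2 * ‖w'‖)
  refine h1.trans (max_le (by simp) ?_)
  have h2 := abs_norm_sub_norm_le w w'
  rw [abs_le] at h2 ⊢
  constructor <;> linarith [h2.1, h2.2]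

omit h in
theorem xC_lip (w w' : X) : ‖xC w - xC w'‖ ≤ 4 * ‖w - w'‖ := by
  have h0 : (0 : ℝ) < max ‖w'‖ (1 / 2) := lt_of_lt_of_le (by norm_num) (le_max_right _ _)
  have h1 := div_lip (p := w) (p' := w') (c := 1 / 2) (by norm_num) (le_max_right ‖w‖ (1 / 2))
    h0 (le_max_left _ _)
  have h2 : |max ‖w‖ (1 / 2) - max ‖w'‖ (1 / 2)| ≤ ‖w - w'‖ := by
    refine (abs_max_sub_max_le_max _ _ _ _).trans (max_le (abs_norm_sub_norm_le _ _) ?_)
    simp
  unfold xC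
  refine h1.trans ?_
  rw [div_le_iff₀ (by norm_num)]
  linarith

theorem toSph_lip {w w' : X} (hw : ‖w‖ ≤ 1) (hw' : ‖w'‖ ≤ 1) :
    ‖toSph R w - toSph R w'‖ ≤ 12 * L ^ 2 * ‖w - w'‖ := by
  have hL := h.hL
  have h1 := h.normR hw
  have h1' : 0 < ‖R (tC w') (xC w')‖ := lt_of_lt_of_le (by positivity) (h.normR hw')
  have h2 := div_lip (p := R (tC w) (xC w)) (p' := R (tC w') (xC w')) (c := 1 / L)
    (by positivity) h1 h1' le_rfl
  have h3 := h.Rl (tC w) (tC w') (xC w) (xC w')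
  have h4 := tC_lip w w'
  have h5 := xC_lip w w'
  have h6 := abs_norm_sub_norm_le (R (tC w) (xC w)) (R (tC w') (xC w'))
  unfold toSph
  refine h2.trans ?_
  rw [div_le_iff₀ (by positivity)]
  have h7 : ‖R (tC w) (xC w) - R (tC w') (xC w')‖ ≤ L * (6 * ‖w - w'‖) := by
    refine h3.trans (mul_le_mul_of_nonneg_left ?_ hL.le)
    linarith
  calc _ ≤ L * (6 * ‖w - w'‖) + L * (6 * ‖w - w'‖) := add_le_add h7 (h6.trans h7)
    _ = 12 * L ^ 2 * ‖w - w'‖ * (1 / L) := by field_simp; ring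

/-- **Sphere and ball.** -/
theorem sphere_ball : ∃ (f : sphere (0 : X) 1 ≃ closedBall (0 : X) 1) (K : ℝ≥0),
    LipschitzWith K f ∧ LipschitzWith K f.symm := by
  have hL := h.hL
  have hN : ∀ v : X, ‖v‖ = 1 → 0 < gN T G v := fun v hv =>
    lt_of_lt_of_le (by positivity) (h.gN_pos hv)
  have hs : ∀ v : sphere (0 : X) 1, ‖(v : X)‖ = 1 := fun v => mem_sphere_zero_iff_norm.1 v.2
  have hb : ∀ w : closedBall (0 : X) 1, ‖(w : X)‖ ≤ 1 := fun w => mem_closedBall_zero_iff.1 w.2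
  refine ⟨{ toFun := fun v => ⟨toBall T G v,
              mem_closedBall_zero_iff.2 (h.norm_toBall (hN _ (hs v)))⟩
            invFun := fun w => ⟨toSph R w,
              mem_sphere_zero_iff_norm.2 (h.norm_toSph (hb w))⟩
            left_inv := fun v => Subtype.ext (h.toSph_toBall (hs v))
            right_inv := fun w => Subtype.ext (h.toBall_toSph (hb w)) },
    ⟨12 * L ^ 2, by positivity⟩, ?_, ?_⟩
  · apply LipschitzWith.of_dist_le_mul
    intro v v'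
    rw [Subtype.dist_eq, Subtype.dist_eq, dist_eq_norm, dist_eq_norm]
    refine (h.toBall_lip (hs v) (hs v')).trans ?_
    change _ ≤ 12 * L ^ 2 * _
    gcongr
    norm_num
  · apply LipschitzWith.of_dist_le_mul
    intro w w'
    rw [Subtype.dist_eq, Subtype.dist_eq, dist_eq_norm, dist_eq_norm]
    exact h.toSph_lip (hb w) (hb w')

end HalfSpace

end Pool.Agent.H53Sph
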