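import Mathlib

/-!
# The positive cone of `c_0` and `c_0`: the recursion on sequences

For a sequence `x ≥ 0` tending to `0` put `mn x n = min (x 0, ..., x n)` and
`fwd x n = max (x (n+1)) (mn x n) - 2 mn x n`. For a sequence `y` tending to `0` put
`ms y n = sup_{k ≥ n} max (-y k) 0` and `bwd y 0 = ms y 0`,
`bwd y (n+1) = max (ms y (n+1)) (y n + 2 ms y (n+1))`. The two maps are inverse to each other and
both are `3`-Lipschitz for the sup norm.
-/

set_option autoImplicit false

open Filter Topology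

namespace Pool.Agent.H53Sph

/-- running minimum -/
def mn (x : ℕ → ℝ) : ℕ → ℝ
  | 0 => x 0
  | n + 1 => min (mn x n) (x (n + 1))

/-- supremum of the negative parts of the tail -/
noncomputable def ms (y : ℕ → ℝ) (n : ℕ) : ℝ := ⨆ k : ℕ, max (-(y (n + k))) 0

/-- from the cone to the space -/
def fwd (x : ℕ → ℝ) (n : ℕ) : ℝ := max (x (n + 1)) (mn x n) - 2 * mn x n

/-- from the space to the cone -/
noncomputable def bwd (y : ℕ → ℝ) : ℕ → ℝ
  | 0 => ms y 0
  | n + 1 => max (ms y (n + 1)) (y n + 2 * ms y (n + 1))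

/-! ## running minimum -/

theorem mn_nonneg {x : ℕ → ℝ} (hx : ∀ n, 0 ≤ x n) (n : ℕ) : 0 ≤ mn x n := by
  induction n with
  | zero => exact hx 0
  | succ n ih => exact le_min ih (hx _)

theorem mn_le (x : ℕ → ℝ) (n : ℕ) : mn x n ≤ x n := by
  cases n with
  | zero => exact le_refl _
  | succ n => exact min_le_right _ _

theorem mn_lip {x x' : ℕ → ℝ} {d : ℝ} (h : ∀ n, |x n - x' n| ≤ d) (n : ℕ) :
    |mn x n - mn x' n| ≤ d := by
  induction n with
  | zero => exact h 0
  | succ n ih =>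
    have h1 := abs_min_sub_min_le_max (mn x n) (x (n + 1)) (mn x' n) (x' (n + 1))
    exact h1.trans (max_le ih (h _))

theorem mn_smul (x : ℕ → ℝ) {a : ℝ} (ha : 0 ≤ a) (n : ℕ) :
    mn (fun k => a * x k) n = a * mn x n := by
  induction n with
  | zero => rfl
  | succ n ih =>
    simp only [mn]
    rw [ih, mul_min_of_nonneg _ _ ha]

theorem mn_tendsto {x : ℕ → ℝ} (hx : ∀ n, 0 ≤ x n) (h : Tendsto x atTop (𝓝 0)) :
    Tendsto (mn x) atTop (𝓝 0) :=
  squeeze_zero (mn_nonneg hx) (mn_le x) h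

/-! ## supremum of the tail -/

theorem ms_bdd {y : ℕ → ℝ} {C : ℝ} (h : ∀ n, |y n| ≤ C) (n : ℕ) :
    BddAbove (Set.range fun k : ℕ => max (-(y (n + k))) 0) := by
  refine ⟨C, ?_⟩
  rintro _ ⟨k, rfl⟩
  have h1 := h (n + k)
  have h2 := neg_abs_le (y (n + k))
  exact max_le (by linarith) ((abs_nonneg _).trans h1)

theorem ms_nonneg (y : ℕ → ℝ) (n : ℕ) : 0 ≤ ms y n :=
  Real.iSup_nonneg fun _ => le_max_right _ _

theorem le_ms {y : ℕ → ℝ} {C : ℝ} (h : ∀ n, |y n| ≤ C) (n k : ℕ) : -(y (n + k)) ≤ ms y n :=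
  (le_max_left _ _).trans (le_ciSup (ms_bdd h n) k)

theorem ms_le {y : ℕ → ℝ} {n : ℕ} {C : ℝ} (hC : 0 ≤ C) (h : ∀ k, -(y (n + k)) ≤ C) :
    ms y n ≤ C :=
  ciSup_le fun k => max_le (h k) hC

theorem ms_step {y : ℕ → ℝ} {C : ℝ} (h : ∀ n, |y n| ≤ C) (n : ℕ) :
    ms y n = max (-(y n)) (ms y (n + 1)) := by
  apply le_antisymm
  · apply ms_le
    · exact le_max_of_le_right (ms_nonneg _ _)
    · intro k
      cases k with
      | zero => exact le_max_left _ _
      | succ k =>
        refine le_max_of_le_right ?_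
        have := le_ms h (n + 1) k
        rwa [show n + 1 + k = n + (k + 1) by ring] at this
  · apply max_le
    · exact le_ms h n 0
    · apply ms_le (ms_nonneg _ _)
      intro k
      have := le_ms h n (k + 1)
      rwa [show n + (k + 1) = n + 1 + k by ring] at this

theorem ms_lip {y y' : ℕ → ℝ} {C C' d : ℝ} (h : ∀ n, |y n| ≤ C) (h' : ∀ n, |y' n| ≤ C')
    (hd : ∀ n, |y n - y' n| ≤ d) (n : ℕ) : |ms y n - ms y' n| ≤ d := by
  have hd0 : 0 ≤ d := (abs_nonneg _).trans (hd 0)
  rw [abs_sub_le_iff]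
  constructor
  · rw [sub_le_iff_le_add]
    apply ms_le (by have := ms_nonneg y' n; linarith)
    intro k
    have h1 := le_ms h' n k
    have h2 := (abs_sub_le_iff.1 (hd (n + k))).2
    linarith
  · rw [sub_le_iff_le_add]
    apply ms_le (by have := ms_nonneg y n; linarith)
    intro k
    have h1 := le_ms h n k
    have h2 := (abs_sub_le_iff.1 (hd (n + k))).1
    linarith

theorem ms_smul (y : ℕ → ℝ) {a : ℝ} (ha : 0 ≤ a) (n : ℕ) :
    ms (fun k => a * y k) n = a * ms y n := by
  unfold ms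
  rw [Real.mul_iSup_of_nonneg ha]
  congr 1
  funext k
  rw [mul_max_of_nonneg _ _ ha]
  congr 1 <;> ring

theorem ms_tendsto {y : ℕ → ℝ} (h : Tendsto y atTop (𝓝 0)) : Tendsto (ms y) atTop (𝓝 0) := by
  rw [Metric.tendsto_atTop]
  intro ε hε
  obtain ⟨N, hN⟩ := (Metric.tendsto_atTop.1 h) (ε / 2) (by linarith)
  refine ⟨N, fun n hn => ?_⟩
  rw [Real.dist_eq, sub_zero, abs_of_nonneg (ms_nonneg _ _)]
  have : ms y n ≤ ε / 2 := by
    apply ms_le (by linarith)
    intro k
    have h1 := hN (n + k) (by omega)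
    rw [Real.dist_eq, sub_zero] at h1
    have h2 := neg_abs_le (y (n + k))
    linarith
  linarith

/-! ## the two maps -/

theorem bwd_nonneg (y : ℕ → ℝ) (n : ℕ) : 0 ≤ bwd y n := by
  cases n with
  | zero => exact ms_nonneg _ _
  | succ n => exact le_max_of_le_left (ms_nonneg _ _)

theorem bwd_tendsto {y : ℕ → ℝ} (h : Tendsto y atTop (𝓝 0)) : Tendsto (bwd y) atTop (𝓝 0) := by
  rw [← tendsto_add_atTop_iff_nat 1]
  have h1 : Tendsto (fun n => ms y (n + 1)) atTop (𝓝 0) :=
    (tendsto_add_atTop_iff_nat 1).2 (ms_tendsto h)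
  have h2 : Tendsto (fun n => y n + 2 * ms y (n + 1)) atTop (𝓝 0) := by
    simpa using h.add (h1.const_mul 2)
  have h3 := h1.max h2
  simpa [bwd] using h3

theorem fwd_tendsto {x : ℕ → ℝ} (hx : ∀ n, 0 ≤ x n) (h : Tendsto x atTop (𝓝 0)) :
    Tendsto (fwd x) atTop (𝓝 0) := by
  have h1 := mn_tendsto hx h
  have h2 : Tendsto (fun n => x (n + 1)) atTop (𝓝 0) := (tendsto_add_atTop_iff_nat 1).2 h
  have h3 := (h2.max h1).sub (h1.const_mul 2)
  simp only [max_self, mul_zero, sub_zero] at h3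
  exact h3

theorem abs_max_sub_max_le {a b c d e : ℝ} (h1 : |a - c| ≤ e) (h2 : |b - d| ≤ e) :
    |max a b - max c d| ≤ e :=
  (abs_max_sub_max_le_max a b c d).trans (max_le h1 h2)

theorem fwd_lip {x x' : ℕ → ℝ} {d : ℝ} (h : ∀ n, |x n - x' n| ≤ d) (n : ℕ) :
    |fwd x n - fwd x' n| ≤ 3 * d := by
  have h1 := mn_lip h n
  have h2 := abs_max_sub_max_le (h (n + 1)) h1
  unfold fwd
  rw [abs_le] at h1 h2 ⊢
  constructor <;> linarith [h1.1, h1.2, h2.1, h2.2]

theorem bwd_lip {y y' : ℕ → ℝ} {C C' d : ℝ} (h : ∀ n, |y n| ≤ C) (h' : ∀ n, |y' n| ≤ C')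
    (hd : ∀ n, |y n - y' n| ≤ d) (n : ℕ) : |bwd y n - bwd y' n| ≤ 3 * d := by
  have hd0 : 0 ≤ d := (abs_nonneg _).trans (hd 0)
  cases n with
  | zero =>
    have h1 := ms_lip h h' hd 0
    simp only [bwd]
    linarith
  | succ n =>
    have h1 := ms_lip h h' hd (n + 1)
    have h2 := hd n
    simp only [bwd]
    apply abs_max_sub_max_le
    · linarith
    · rw [abs_le] at h1 h2 ⊢
      constructor <;> linarith [h1.1, h1.2, h2.1, h2.2]

theorem fwd_smul (x : ℕ → ℝ) {a : ℝ} (ha : 0 ≤ a) (n : ℕ) :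
    fwd (fun k => a * x k) n = a * fwd x n := by
  unfold fwd
  rw [mn_smul x ha, mul_sub, mul_max_of_nonneg _ _ ha]
  ring

theorem bwd_smul (y : ℕ → ℝ) {a : ℝ} (ha : 0 ≤ a) (n : ℕ) :
    bwd (fun k => a * y k) n = a * bwd y n := by
  cases n with
  | zero => exact ms_smul y ha 0
  | succ n =>
    simp only [bwd]
    rw [ms_smul y ha, mul_max_of_nonneg _ _ ha]
    congr 1
    ring

/-- running minimum of `bwd y` -/
theorem mn_bwd {y : ℕ → ℝ} {C : ℝ} (h : ∀ n, |y n| ≤ C) (n : ℕ) : mn (bwd y) n = ms y n := by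
  induction n with
  | zero => rfl
  | succ n ih =>
    simp only [mn, bwd]
    rw [ih, ms_step h n]
    rcases le_total (-(y n)) (ms y (n + 1)) with h1 | h1
    · rw [max_eq_right h1]
      exact min_eq_left (le_max_left _ _)
    · rw [max_eq_left h1, max_eq_left (by linarith : y n + 2 * ms y (n + 1) ≤ ms y (n + 1))]
      exact min_eq_right h1

theorem fwd_bwd {y : ℕ → ℝ} {C : ℝ} (h : ∀ n, |y n| ≤ C) (n : ℕ) : fwd (bwd y) n = y n := by
  unfold fwd
  rw [mn_bwd h n, ms_step h n]
  simp only [bwd]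
  rcases le_total (-(y n)) (ms y (n + 1)) with h1 | h1
  · rw [max_eq_right h1, max_eq_right (by linarith : ms y (n + 1) ≤ y n + 2 * ms y (n + 1)),
      max_eq_left (by linarith)]
    ring
  · rw [max_eq_left h1, max_eq_left (by linarith : y n + 2 * ms y (n + 1) ≤ ms y (n + 1)),
      max_eq_right h1]
    ring

/-- tail suprema of `fwd x` -/
theorem ms_fwd {x : ℕ → ℝ} (hx : ∀ n, 0 ≤ x n) (hlim : Tendsto x atTop (𝓝 0)) (n : ℕ) :
    ms (fwd x) n = mn x n := by
  have hanti : ∀ n k, mn x (n + k) ≤ mn x n := by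
    intro n k
    induction k with
    | zero => exact le_refl _
    | succ k ih => exact (min_le_left _ _).trans ih
  have hle : ∀ m, -(fwd x m) ≤ mn x m := by
    intro m
    unfold fwd
    have := le_max_right (x (m + 1)) (mn x m)
    linarith
  have hbd : ∃ C, ∀ n, |fwd x n| ≤ C := by
    have h1 := (fwd_tendsto hx hlim).abs.bddAbove_range
    obtain ⟨C, hC⟩ := h1
    exact ⟨C, fun n => hC ⟨n, rfl⟩⟩
  obtain ⟨C, hC⟩ := hbd
  apply le_antisymm
  · apply ms_le (mn_nonneg hx n)
    intro k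
    exact (hle _).trans (hanti n k)
  · rcases (mn_nonneg hx n).eq_or_lt with h0 | h0
    · rw [← h0]; exact ms_nonneg _ _
    · -- the first time at which the running minimum drops
      have hex : ∃ k, x (n + k + 1) < mn x n := by
        have h1 : ∀ᶠ m in atTop, x m < mn x n := hlim.eventually (gt_mem_nhds h0)
        obtain ⟨m, h2, h3⟩ := (h1.and (eventually_ge_atTop (n + 1))).exists
        exact ⟨m - n - 1, by rwa [show n + (m - n - 1) + 1 = m by omega]⟩
      classical
      set k := Nat.find hex with hk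
      have hk1 : x (n + k + 1) < mn x n := Nat.find_spec hex
      have hk2 : ∀ j < k, mn x n ≤ x (n + j + 1) := fun j hj => not_lt.1 (Nat.find_min hex hj)
      have hcst : ∀ j ≤ k, mn x (n + j) = mn x n := by
        intro j
        induction j with
        | zero => intro _; rfl
        | succ j ih =>
          intro hj
          have e1 := ih (by omega)
          have e2 := hk2 j (by omega)
          change min (mn x (n + j)) (x (n + j + 1)) = mn x n
          rw [e1]
          exact min_eq_left e2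
      have h2 := le_ms hC n k
      have h3 : fwd x (n + k) = - mn x n := by
        unfold fwd
        rw [hcst k le_rfl, max_eq_right hk1.le]
        ring
      rw [h3] at h2
      linarith

theorem bwd_fwd {x : ℕ → ℝ} (hx : ∀ n, 0 ≤ x n) (hlim : Tendsto x atTop (𝓝 0)) (n : ℕ) :
    bwd (fwd x) n = x n := by
  cases n with
  | zero => exact ms_fwd hx hlim 0
  | succ n =>
    simp only [bwd]
    rw [ms_fwd hx hlim (n + 1)]
    simp only [mn, fwd]
    rcases le_total (x (n + 1)) (mn x n) with h1 | h1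
    · rw [max_eq_right h1, min_eq_right h1]
      apply max_eq_left
      linarith
    · rw [max_eq_left h1, min_eq_left h1]
      rw [max_eq_right (by linarith)]
      ring

end Pool.Agent.H53Sph
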