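import Mathlib
import Pool.Agent.H53Sph.Seq

/-!
# A homogeneous bi-Lipschitz bijection between `c_0` and the half-space `[0, ∞) × c_0`
-/

set_option autoImplicit false

open Filter Topology
open scoped ZeroAtInfty

namespace Pool.Agent.H53Sph

/-- a sequence tending to zero as an element of `c_0` -/
def mk0 (x : ℕ → ℝ) (h : Tendsto x atTop (𝓝 0)) : C₀(ℕ, ℝ) where
  toFun := x
  continuous_toFun := continuous_of_discreteTopology
  zero_at_infty' := by rwa [cocompact_eq_cofinite, Nat.cofinite_eq_atTop]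

theorem tendsto0 (z : C₀(ℕ, ℝ)) : Tendsto (fun n => z n) atTop (𝓝 0) := by
  have := z.zero_at_infty'
  rwa [cocompact_eq_cofinite, Nat.cofinite_eq_atTop] at this

theorem abs_le_norm (z : C₀(ℕ, ℝ)) (n : ℕ) : |z n| ≤ ‖z‖ := by
  rw [← ZeroAtInftyContinuousMap.norm_toBCF_eq_norm]
  exact z.toBCF.norm_coe_le_norm n

theorem norm_le_of (z : C₀(ℕ, ℝ)) {C : ℝ} (hC : 0 ≤ C) (h : ∀ n, |z n| ≤ C) : ‖z‖ ≤ C := by
  rw [← ZeroAtInftyContinuousMap.norm_toBCF_eq_norm]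
  exact (BoundedContinuousFunction.norm_le hC).2 h

/-- the first coordinate of the bijection `c_0 ≃ [0, ∞) × c_0` -/
noncomputable def hT (z : C₀(ℕ, ℝ)) : ℝ := ms (fun n => z n) 0

theorem sh_nonneg (y : ℕ → ℝ) (n : ℕ) : 0 ≤ bwd y (n + 1) := bwd_nonneg y _

theorem sh_tendsto {y : ℕ → ℝ} (h : Tendsto y atTop (𝓝 0)) :
    Tendsto (fun n => bwd y (n + 1)) atTop (𝓝 0) :=
  (tendsto_add_atTop_iff_nat 1).2 (bwd_tendsto h)

/-- the second coordinate of the bijection `c_0 ≃ [0, ∞) × c_0` -/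
noncomputable def hG (z : C₀(ℕ, ℝ)) : C₀(ℕ, ℝ) :=
  mk0 (fwd fun n => bwd (fun n => z n) (n + 1))
    (fwd_tendsto (sh_nonneg _) (sh_tendsto (tendsto0 z)))

/-- prepend `t` to `bwd y` -/
noncomputable def pre (t : ℝ) (y : ℕ → ℝ) : ℕ → ℝ
  | 0 => t
  | n + 1 => bwd y n

theorem pre_nonneg {t : ℝ} (ht : 0 ≤ t) (y : ℕ → ℝ) (n : ℕ) : 0 ≤ pre t y n := by
  cases n with
  | zero => exact ht
  | succ n => exact bwd_nonneg _ _

theorem pre_tendsto (t : ℝ) {y : ℕ → ℝ} (h : Tendsto y atTop (𝓝 0)) :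
    Tendsto (pre t y) atTop (𝓝 0) :=
  (tendsto_add_atTop_iff_nat 1).1 (bwd_tendsto h)

/-- the inverse of the bijection `c_0 ≃ [0, ∞) × c_0`; the first argument is cut off at `0` -/
noncomputable def hR (t : ℝ) (z : C₀(ℕ, ℝ)) : C₀(ℕ, ℝ) :=
  mk0 (fwd (pre (max t 0) fun n => z n))
    (fwd_tendsto (pre_nonneg (le_max_right _ _) _) (pre_tendsto _ (tendsto0 z)))

theorem hT_nonneg (z : C₀(ℕ, ℝ)) : 0 ≤ hT z := ms_nonneg _ _

theorem hT_smul (z : C₀(ℕ, ℝ)) {a : ℝ} (ha : 0 ≤ a) : hT (a • z) = a * hT z :=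
  ms_smul (fun n => z n) ha 0

theorem hT_lip (z z' : C₀(ℕ, ℝ)) : |hT z - hT z'| ≤ ‖z - z'‖ :=
  ms_lip (abs_le_norm z) (abs_le_norm z') (fun n => abs_le_norm (z - z') n) 0

theorem hG_smul (z : C₀(ℕ, ℝ)) {a : ℝ} (ha : 0 ≤ a) : hG (a • z) = a • hG z := by
  ext n
  change fwd (fun n => bwd (fun n => a * z n) (n + 1)) n = a * _
  have e : (fun n => bwd (fun n => a * z n) (n + 1)) =
      fun n => a * bwd (fun n => z n) (n + 1) := by
    funext k
    exact bwd_smul (fun n => z n) ha (k + 1)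
  rw [e]
  exact fwd_smul _ ha n

theorem hG_lip (z z' : C₀(ℕ, ℝ)) : ‖hG z - hG z'‖ ≤ 9 * ‖z - z'‖ := by
  apply norm_le_of _ (by positivity)
  intro n
  change |fwd (fun n => bwd (fun n => z n) (n + 1)) n -
    fwd (fun n => bwd (fun n => z' n) (n + 1)) n| ≤ _
  have h1 : ∀ k, |bwd (fun n => z n) (k + 1) - bwd (fun n => z' n) (k + 1)| ≤ 3 * ‖z - z'‖ :=
    fun k => bwd_lip (abs_le_norm z) (abs_le_norm z') (fun n => abs_le_norm (z - z') n) (k + 1)
  have h2 := fwd_lip h1 n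
  linarith

theorem pre_lip {t t' : ℝ} {y y' : ℕ → ℝ} {C C' d : ℝ} (h : ∀ n, |y n| ≤ C)
    (h' : ∀ n, |y' n| ≤ C') (hd : ∀ n, |y n - y' n| ≤ d) (n : ℕ) :
    |pre t y n - pre t' y' n| ≤ |t - t'| + 3 * d := by
  have hd0 : 0 ≤ d := (abs_nonneg _).trans (hd 0)
  cases n with
  | zero => change |t - t'| ≤ _; linarith
  | succ n =>
    have := bwd_lip h h' hd n
    have h2 := abs_nonneg (t - t')
    simp only [pre]
    linarith

theorem hR_lip (t t' : ℝ) (z z' : C₀(ℕ, ℝ)) :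
    ‖hR t z - hR t' z'‖ ≤ 9 * (|t - t'| + ‖z - z'‖) := by
  apply norm_le_of _ (by positivity)
  intro n
  change |fwd (pre (max t 0) fun n => z n) n - fwd (pre (max t' 0) fun n => z' n) n| ≤ _
  have h1 := fwd_lip (pre_lip (t := max t 0) (t' := max t' 0) (abs_le_norm z) (abs_le_norm z')
    (fun n => abs_le_norm (z - z') n)) n
  have h2 : |max t 0 - max t' 0| ≤ |t - t'| := abs_max_sub_max_le_abs _ _ _
  have h3 := abs_nonneg (t - t')
  linarith

theorem hR_smul {t : ℝ} (z : C₀(ℕ, ℝ)) {a : ℝ} (ha : 0 ≤ a) :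
    hR (a * t) (a • z) = a • hR t z := by
  ext n
  change fwd (pre (max (a * t) 0) fun n => a * z n) n = a * _
  have e : (pre (max (a * t) 0) fun n => a * z n) = fun n => a * pre (max t 0) (fun n => z n) n := by
    funext k
    cases k with
    | zero =>
      change max (a * t) 0 = a * max t 0
      rw [mul_max_of_nonneg _ _ ha, mul_zero]
    | succ k => exact bwd_smul (fun n => z n) ha k
  rw [e]
  exact fwd_smul _ ha n

theorem hR_hTG (z : C₀(ℕ, ℝ)) : hR (hT z) (hG z) = z := by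
  ext n
  change fwd (pre (max (hT z) 0) (fwd fun n => bwd (fun n => z n) (n + 1))) n = z n
  have e : pre (max (hT z) 0) (fwd fun n => bwd (fun n => z n) (n + 1)) = bwd (fun n => z n) := by
    funext k
    cases k with
    | zero => exact max_eq_left (hT_nonneg z)
    | succ k => exact bwd_fwd (sh_nonneg _) (sh_tendsto (tendsto0 z)) k
  rw [e]
  exact fwd_bwd (abs_le_norm z) n

theorem hT_hR {t : ℝ} (ht : 0 ≤ t) (z : C₀(ℕ, ℝ)) : hT (hR t z) = t := by
  change ms (fwd (pre (max t 0) fun n => z n)) 0 = t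
  rw [ms_fwd (pre_nonneg (le_max_right _ _) _) (pre_tendsto _ (tendsto0 z)) 0]
  exact max_eq_left ht

theorem hG_hR (t : ℝ) (z : C₀(ℕ, ℝ)) : hG (hR t z) = z := by
  ext n
  change fwd (fun n => bwd (fwd (pre (max t 0) fun n => z n)) (n + 1)) n = z n
  have e : (fun n => bwd (fwd (pre (max t 0) fun n => z n)) (n + 1)) = bwd (fun n => z n) := by
    funext k
    exact bwd_fwd (pre_nonneg (le_max_right _ _) _) (pre_tendsto _ (tendsto0 z)) (k + 1)
  rw [e]
  exact fwd_bwd (abs_le_norm z) n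

end Pool.Agent.H53Sph
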