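import Mathlib
import Pool.Agent.H53Sph.Cone

/-!
# Sobczyk's theorem: copies of `c_0` in separable spaces are complemented
-/

set_option autoImplicit false

open Filter Topology Metric
open scoped ZeroAtInfty

namespace Pool.Agent.H53Sph

variable {X : Type*} [NormedAddCommGroup X] [NormedSpace ℝ X]

/-- extension of a coordinate functional on a copy of `c_0` -/
theorem exists_ext (e : C₀(ℕ, ℝ) →L[ℝ] X) {c : ℝ} (hc : 0 < c) (he : ∀ z, c * ‖z‖ ≤ ‖e z‖) (n : ℕ) :
    ∃ g : X →L[ℝ] ℝ, (∀ z, g (e z) = z n) ∧ ‖g‖ ≤ c⁻¹ := by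
  have hinj : Function.Injective e.toLinearMap := by
    rw [injective_iff_map_eq_zero]
    intro z hz
    have h1 := he z
    have h2 : e z = 0 := hz
    rw [h2, norm_zero] at h1
    have h3 : ‖z‖ ≤ 0 := by nlinarith [norm_nonneg z]
    exact norm_le_zero_iff.1 h3
  let p : Subspace ℝ X := LinearMap.range e.toLinearMap
  let E := LinearEquiv.ofInjective e.toLinearMap hinj
  let f0 : p →ₗ[ℝ] ℝ :=
    { toFun := fun x => (E.symm x) n
      map_add' := fun x y => by rw [map_add]; rfl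
      map_smul' := fun a x => by rw [map_smul]; rfl }
  have hE : ∀ x : p, e (E.symm x) = x := by
    intro x
    have : (E (E.symm x) : X) = x := by rw [E.apply_symm_apply]
    exact this
  let f : StrongDual ℝ p := f0.mkContinuous c⁻¹ (by
    intro x
    have h1 := he (E.symm x)
    rw [hE] at h1
    have h2 : ‖f0 x‖ ≤ ‖E.symm x‖ := by
      rw [Real.norm_eq_abs]
      exact abs_le_norm _ _
    have h3 : ‖E.symm x‖ ≤ c⁻¹ * ‖(x : X)‖ := by
      rw [inv_mul_eq_div, le_div_iff₀ hc]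
      linarith
    exact h2.trans h3)
  obtain ⟨g, hg1, hg2⟩ := exists_extension_norm_eq p f
  refine ⟨g, ?_, ?_⟩
  · intro z
    have h1 := hg1 (E z)
    have h2 : ((E z : p) : X) = e z := rfl
    rw [h2] at h1
    rw [h1]
    change (E.symm (E z)) n = z n
    rw [E.symm_apply_apply]
  · rw [hg2]
    exact LinearMap.mkContinuous_norm_le _ (inv_nonneg.2 hc.le) _

/-- **Sobczyk's theorem.** -/
theorem sobczyk [TopologicalSpace.SeparableSpace X] (e : C₀(ℕ, ℝ) →L[ℝ] X) {c : ℝ} (hc : 0 < c)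
    (he : ∀ z, c * ‖z‖ ≤ ‖e z‖) : ∃ P : X →L[ℝ] C₀(ℕ, ℝ), ∀ z, P (e z) = z := by
  choose g hg1 hg2 using exists_ext e hc he
  set C := c⁻¹ with hC
  have hC0 : 0 ≤ C := (norm_nonneg _).trans (hg2 0)
  have : Nonempty X := ⟨0⟩
  let u : ℕ → X := TopologicalSpace.denseSeq X
  have hu : DenseRange u := TopologicalSpace.denseRange_denseSeq X
  -- functionals which vanish on the copy of `c_0` and approximate `g n`
  let Q : ℕ → ℕ → Prop := fun m n => ∃ v : X →L[ℝ] ℝ, ‖v‖ ≤ C ∧ (∀ z, v (e z) = 0) ∧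
    ∀ k ≤ m, |g n (u k) - v (u k)| ≤ 1 / ((m : ℝ) + 1)
  have hQ : ∀ m, ∀ᶠ n in atTop, Q m n := by
    intro m
    by_contra hcon
    rw [not_eventually] at hcon
    obtain ⟨φ, hφ, hφ2⟩ := extraction_of_frequently_atTop hcon
    have hseq := WeakDual.isSeqCompact_closedBall (𝕜 := ℝ) (E := X) (0 : StrongDual ℝ X) C
    have hmem : ∀ n, (StrongDual.toWeakDual (g (φ n))) ∈
        (WeakDual.toStrongDual ⁻¹' Metric.closedBall (0 : StrongDual ℝ X) C) := by
      intro n
      simp only [Set.mem_preimage, mem_closedBall_zero_iff]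
      exact hg2 _
    obtain ⟨v, hv1, ψ, hψ, hψ2⟩ := hseq hmem
    have hv : ∀ x, Tendsto (fun n => g (φ (ψ n)) x) atTop (𝓝 (v x)) := by
      intro x
      have h1 := (WeakDual.eval_continuous (𝕜 := ℝ) x).tendsto v
      exact h1.comp hψ2
    let v' : X →L[ℝ] ℝ := WeakDual.toStrongDual v
    have hv' : ∀ x, v' x = v x := fun x => rfl
    have hvn : ‖v'‖ ≤ C := by
      simpa [mem_closedBall_zero_iff] using hv1
    have hve : ∀ z, v' (e z) = 0 := by
      intro z
      have h1 := hv (e z)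
      simp only [hg1] at h1
      have h2 : Tendsto (fun n => z (φ (ψ n))) atTop (𝓝 0) :=
        (tendsto0 z).comp (hφ.comp hψ).tendsto_atTop
      rw [hv']
      exact tendsto_nhds_unique h1 h2
    have hpos : (0 : ℝ) < 1 / ((m : ℝ) + 1) := by positivity
    have hev : ∀ᶠ n in atTop, ∀ k ∈ Finset.range (m + 1),
        |g (φ (ψ n)) (u k) - v' (u k)| ≤ 1 / ((m : ℝ) + 1) := by
      rw [Filter.eventually_all_finset]
      intro k _
      have h1 := (Metric.tendsto_atTop.1 (hv (u k))) _ hpos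
      obtain ⟨N, hN⟩ := h1
      filter_upwards [eventually_ge_atTop N] with n hn
      have := hN n hn
      rw [Real.dist_eq] at this
      exact this.le
    obtain ⟨n, hn⟩ := hev.exists
    exact hφ2 (ψ n) ⟨v', hvn, hve, fun k hk => hn k (Finset.mem_range.2 (by omega))⟩
  have hQ0 : ∀ n, ∃ v : X →L[ℝ] ℝ, ‖v‖ ≤ C ∧ (∀ z, v (e z) = 0) ∧
      ∀ m ≤ n, Q m n → ∃ m' ≥ m, ∀ k ≤ m', |g n (u k) - v (u k)| ≤ 1 / ((m' : ℝ) + 1) := by
    intro n
    classical
    by_cases h : ∃ m ≤ n, Q m n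
    · have h1 := Nat.findGreatest_spec (P := fun m => Q m n) h.choose_spec.1 h.choose_spec.2
      obtain ⟨v, hv1, hv2, hv3⟩ := h1
      refine ⟨v, hv1, hv2, fun m hm hmQ => ⟨_, Nat.le_findGreatest hm hmQ, hv3⟩⟩
    · refine ⟨0, by simpa using hC0, fun z => rfl, fun m hm hmQ => absurd ⟨m, hm, hmQ⟩ h⟩
  choose v hv1 hv2 hv3 using hQ0
  have hnorm : ∀ n x, |g n x - v n x| ≤ 2 * C * ‖x‖ := by
    intro n x
    have h1 : |g n x| ≤ C * ‖x‖ := ((g n).le_opNorm x).trans
      (mul_le_mul_of_nonneg_right (hg2 n) (norm_nonneg _))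
    have h2 : |v n x| ≤ C * ‖x‖ := ((v n).le_opNorm x).trans
      (mul_le_mul_of_nonneg_right (hv1 n) (norm_nonneg _))
    have h3 := abs_sub (g n x) (v n x)
    linarith
  have hlim0 : ∀ k, Tendsto (fun n => g n (u k) - v n (u k)) atTop (𝓝 0) := by
    intro k
    rw [Metric.tendsto_atTop]
    intro ε hε
    obtain ⟨m, hm⟩ := exists_nat_gt (1 / ε)
    obtain ⟨N, hN⟩ := eventually_atTop.1 (hQ (max m k))
    refine ⟨max N (max m k), fun n hn => ?_⟩
    have hn1 : N ≤ n := (le_max_left _ _).trans hn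
    have hn2 : max m k ≤ n := (le_max_right _ _).trans hn
    obtain ⟨m', hm', h⟩ := hv3 n _ hn2 (hN n hn1)
    have h1 := h k ((le_max_right _ _).trans hm')
    rw [Real.dist_eq, sub_zero]
    refine lt_of_le_of_lt h1 ?_
    have h2 : (m : ℝ) ≤ m' := by exact_mod_cast (le_max_left m k).trans hm'
    rw [div_lt_iff₀ (by positivity)]
    rw [div_lt_iff₀ hε] at hm
    nlinarith
  have hlim : ∀ x, Tendsto (fun n => g n x - v n x) atTop (𝓝 0) := by
    intro x
    rw [Metric.tendsto_atTop]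
    intro ε hε
    have hC1 : 0 < 2 * C + 1 := by linarith
    obtain ⟨k, hk⟩ := hu.exists_dist_lt x (show 0 < ε / 2 / (2 * C + 1) by positivity)
    obtain ⟨N, hN⟩ := (Metric.tendsto_atTop.1 (hlim0 k)) (ε / 2) (by positivity)
    refine ⟨N, fun n hn => ?_⟩
    have h1 := hN n hn
    have h2 := hnorm n (x - u k)
    rw [Real.dist_eq, sub_zero] at h1 ⊢
    rw [dist_eq_norm] at hk
    have h3 : 2 * C * ‖x - u k‖ < ε / 2 := by
      rw [lt_div_iff₀ hC1] at hk
      nlinarith [norm_nonneg (x - u k)]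
    have h4 : g n x - v n x = (g n (u k) - v n (u k)) + (g n (x - u k) - v n (x - u k)) := by
      rw [map_sub, map_sub]; ring
    rw [h4]
    have h5 := abs_add_le (g n (u k) - v n (u k)) (g n (x - u k) - v n (x - u k))
    linarith
  let P0 : X →ₗ[ℝ] C₀(ℕ, ℝ) :=
    { toFun := fun x => mk0 (fun n => g n x - v n x) (hlim x)
      map_add' := fun x y => by
        ext n
        change g n (x + y) - v n (x + y) = (g n x - v n x) + (g n y - v n y)
        rw [map_add, map_add]; ring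
      map_smul' := fun a x => by
        ext n
        change g n (a • x) - v n (a • x) = a * (g n x - v n x)
        rw [map_smul, map_smul, smul_eq_mul, smul_eq_mul]; ring }
  refine ⟨P0.mkContinuous (2 * C) (fun x => norm_le_of _ (by positivity) fun n => hnorm n x), ?_⟩
  intro z
  ext n
  change g n (e z) - v n (e z) = z n
  rw [hg1, hv2, sub_zero]

end Pool.Agent.H53Sph
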