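import Mathlib
import Pool.Agent.H53Sph.Cone
import Pool.Agent.H53Sph.Ball
import Pool.Agent.H53Sph.Sobczyk

/-!
# The half-space bijection for spaces with a complemented copy of `c_0`
-/

set_option autoImplicit false

open Filter Topology Metric
open scoped ZeroAtInfty NNReal

namespace Pool.Agent.H53Sph

variable {X : Type*} [NormedAddCommGroup X] [NormedSpace ℝ X]

theorem halfSpace_of_complemented (e : C₀(ℕ, ℝ) →L[ℝ] X) (P : X →L[ℝ] C₀(ℕ, ℝ))
    (hP : ∀ z, P (e z) = z) :
    HalfSpace X (fun v => hT (P v)) (fun v => v + e (hG (P v) - P v))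
      (fun t x => x + e (hR t (P x) - P x)) (9 * (1 + ‖P‖) * (1 + ‖e‖) * (1 + ‖P‖) + 1) := by
  have hp : 0 ≤ ‖P‖ := norm_nonneg P
  have he : 0 ≤ ‖e‖ := norm_nonneg e
  have hPl : ∀ v v', ‖P v - P v'‖ ≤ ‖P‖ * ‖v - v'‖ := fun v v' => by
    rw [← map_sub]; exact P.le_opNorm _
  have hel : ∀ z, ‖e z‖ ≤ ‖e‖ * ‖z‖ := fun z => e.le_opNorm z
  have hbig : ∀ d : ℝ, 0 ≤ d → ‖P‖ * d ≤
      (9 * (1 + ‖P‖) * (1 + ‖e‖) * (1 + ‖P‖) + 1) * d := by
    intro d hd
    apply mul_le_mul_of_nonneg_right _ hd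
    nlinarith [mul_nonneg hp he, mul_nonneg hp hp, mul_nonneg (mul_nonneg hp he) hp]
  have hbig2 : ∀ d : ℝ, 0 ≤ d → d + ‖e‖ * (9 * (d + ‖P‖ * d) + ‖P‖ * d) ≤
      (9 * (1 + ‖P‖) * (1 + ‖e‖) * (1 + ‖P‖) + 1) * d := by
    intro d hd
    have h1 : 1 + ‖e‖ * (9 * (1 + ‖P‖) + ‖P‖) ≤
        9 * (1 + ‖P‖) * (1 + ‖e‖) * (1 + ‖P‖) + 1 := by
      nlinarith [mul_nonneg hp he, mul_nonneg hp hp, mul_nonneg (mul_nonneg hp he) hp]
    calc d + ‖e‖ * (9 * (d + ‖P‖ * d) + ‖P‖ * d) = (1 + ‖e‖ * (9 * (1 + ‖P‖) + ‖P‖)) * d := by ring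
      _ ≤ _ := mul_le_mul_of_nonneg_right h1 hd
  have hPG : ∀ v, P (v + e (hG (P v) - P v)) = hG (P v) := by
    intro v
    rw [map_add, hP]
    abel
  have hPR : ∀ t x, P (x + e (hR t (P x) - P x)) = hR t (P x) := by
    intro t x
    rw [map_add, hP]
    abel
  refine ⟨by positivity, fun v => hT_nonneg _, ?_, ?_, ?_, ?_, ?_, ?_, ?_, ?_, ?_⟩
  · intro v a ha
    simp only [map_smul]
    exact hT_smul _ ha
  · intro v v'
    exact ((hT_lip _ _).trans (hPl v v')).trans (hbig _ (norm_nonneg _))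
  · intro v a ha
    simp only [map_smul]
    rw [hG_smul _ ha]
    simp only [map_sub, map_smul, smul_add, smul_sub]
  · intro v v'
    have e1 : v + e (hG (P v) - P v) - (v' + e (hG (P v') - P v')) =
        (v - v') + e ((hG (P v) - hG (P v')) - (P v - P v')) := by
      simp only [map_sub]; abel
    simp only [e1]
    refine (norm_add_le _ _).trans (le_trans ?_ (hbig2 _ (norm_nonneg (v - v'))))
    refine add_le_add le_rfl ((hel _).trans (mul_le_mul_of_nonneg_left ?_ he))
    refine (norm_sub_le _ _).trans (add_le_add ?_ (hPl v v'))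
    refine (hG_lip _ _).trans (mul_le_mul_of_nonneg_left ?_ (by norm_num))
    have := hPl v v'
    have h0 := norm_nonneg (v - v')
    linarith
  · intro t x a ha
    simp only [map_smul]
    rw [hR_smul _ ha]
    simp only [map_sub, map_smul, smul_add, smul_sub]
  · intro t t' x x'
    have e1 : x + e (hR t (P x) - P x) - (x' + e (hR t' (P x') - P x')) =
        (x - x') + e ((hR t (P x) - hR t' (P x')) - (P x - P x')) := by
      simp only [map_sub]; abel
    simp only [e1]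
    have h0 := norm_nonneg (x - x')
    have h1 := abs_nonneg (t - t')
    refine (norm_add_le _ _).trans (le_trans ?_ (hbig2 _ (add_nonneg h1 h0)))
    refine add_le_add (by linarith) ((hel _).trans (mul_le_mul_of_nonneg_left ?_ he))
    have h2 := hPl x x'
    have h3 : ‖P‖ * ‖x - x'‖ ≤ ‖P‖ * (|t - t'| + ‖x - x'‖) :=
      mul_le_mul_of_nonneg_left (by linarith) hp
    refine (norm_sub_le _ _).trans (add_le_add ?_ (h2.trans h3))
    refine (hR_lip _ _ _ _).trans (mul_le_mul_of_nonneg_left ?_ (by norm_num))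
    linarith
  · intro v
    simp only [hPG]
    rw [hR_hTG]
    simp only [map_sub]
    abel
  · intro t x ht
    simp only [hPR]
    exact hT_hR ht _
  · intro t x
    simp only [hPR]
    rw [hG_hR]
    simp only [map_sub]
    abel

/-- `c_0` is infinite-dimensional. -/
theorem not_finite_c0 : ¬ FiniteDimensional ℝ C₀(ℕ, ℝ) := by
  intro hfin
  let s : (ℕ →₀ ℝ) →ₗ[ℝ] C₀(ℕ, ℝ) :=
    { toFun := fun f => mk0 f (by
        apply tendsto_const_nhds.congr'
        obtain ⟨N, hN⟩ := f.support.exists_nat_subset_range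
        filter_upwards [eventually_ge_atTop N] with n hn
        have : n ∉ f.support := fun h => by
          have := Finset.mem_range.1 (hN h); omega
        exact (Finsupp.notMem_support_iff.1 this).symm)
      map_add' := fun f g => rfl
      map_smul' := fun a f => rfl }
  have hs : Function.Injective s := by
    intro f g h
    ext n
    have := DFunLike.congr_fun h n
    exact this
  have h2 : Module.Finite ℝ (ℕ →₀ ℝ) := Module.Finite.of_injective s hs
  have h3 := Module.Finite.finite_basis (Finsupp.basisSingleOne (R := ℝ) (ι := ℕ))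
  exact not_finite ℕ

theorem not_finite_of_embedding (e : C₀(ℕ, ℝ) →L[ℝ] X) {c : ℝ} (hc : 0 < c)
    (he : ∀ z, c * ‖z‖ ≤ ‖e z‖) : ¬ FiniteDimensional ℝ X := by
  intro hfin
  have hinj : Function.Injective e.toLinearMap := by
    rw [injective_iff_map_eq_zero]
    intro z hz
    have h1 := he z
    have h2 : e z = 0 := hz
    rw [h2, norm_zero] at h1
    have h3 : ‖z‖ ≤ 0 := by nlinarith [norm_nonneg z]
    exact norm_le_zero_iff.1 h3
  exact not_finite_c0 (Module.Finite.of_injective e.toLinearMap hinj)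

theorem main (e : C₀(ℕ, ℝ) →L[ℝ] X) {c : ℝ} (hc : 0 < c) (he : ∀ z, c * ‖z‖ ≤ ‖e z‖)
    (h : TopologicalSpace.SeparableSpace X ∨ ∃ P : X →L[ℝ] C₀(ℕ, ℝ), ∀ z, P (e z) = z) :
    ∃ (f : sphere (0 : X) 1 ≃ᵤ closedBall (0 : X) 1) (K : ℝ≥0),
      LipschitzWith K f ∧ LipschitzWith K f.symm := by
  have h' : ∃ P : X →L[ℝ] C₀(ℕ, ℝ), ∀ z, P (e z) = z := by
    rcases h with h | h
    · exact sobczyk e hc he
    · exact h
  obtain ⟨P, hP⟩ := h'
  obtain ⟨f, K, h1, h2⟩ := (halfSpace_of_complemented e P hP).sphere_ball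
  exact ⟨⟨f, h1.uniformContinuous, h2.uniformContinuous⟩, K, h1, h2⟩

end Pool.Agent.H53Sph
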